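import Pool.Agent.Helper92.BO.GoalsC

/-!
# MOB: the logarithmic coefficient as a sum over connected sets
-/

namespace Pool.Agent.Helper40.BO

open Finset Pool.Agent.Helper92.BO

/-- The Moebius sum. -/
noncomputable def phi (s : Finset ℕ → ℕ → ℝ) (j : ℕ) (S : Finset ℕ) : ℝ :=
  ∑ T ∈ S.powerset, (-1 : ℝ) ^ (S.card - T.card) * s T j

/-- The alternating sum over an interval of sets. -/
theorem inner (V T : Finset ℕ) (hT : T ⊆ V) :
    ∑ S ∈ V.powerset.filter (fun S => T ⊆ S), (-1 : ℝ) ^ (S.card - T.card) =
      if T = V then 1 else 0 := by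
  classical
  have h1 : ∑ S ∈ V.powerset.filter (fun S => T ⊆ S), (-1 : ℝ) ^ (S.card - T.card) =
      ∑ U ∈ (V \ T).powerset, (-1 : ℝ) ^ U.card := by
    refine Finset.sum_bij' (fun S _ => S \ T) (fun U _ => T ∪ U) ?_ ?_ ?_ ?_ ?_
    · intro S hS
      rw [mem_filter, mem_powerset] at hS
      rw [mem_powerset]
      exact sdiff_subset_sdiff hS.1 (le_refl _)
    · intro U hU
      rw [mem_powerset] at hU
      rw [mem_filter, mem_powerset]
      exact ⟨union_subset hT (hU.trans sdiff_subset), subset_union_left⟩
    · intro S hS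
      rw [mem_filter, mem_powerset] at hS
      exact union_sdiff_of_subset hS.2
    · intro U hU
      rw [mem_powerset] at hU
      have hd : Disjoint T U := by
        rw [disjoint_left]
        intro a ha hb
        exact (mem_sdiff.mp (hU hb)).2 ha
      exact union_sdiff_cancel_left hd
    · intro S hS
      rw [mem_filter, mem_powerset] at hS
      rw [card_sdiff_of_subset hS.2]
  rw [h1]
  by_cases h : T = V
  · subst h
    simp
  · rw [if_neg h]
    have hne : (V \ T).Nonempty := by
      rw [sdiff_nonempty]
      intro h'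
      exact h (Subset.antisymm hT h')
    have h2 := Finset.sum_powerset_neg_one_pow_card_of_nonempty hne
    exact_mod_cast h2

/-- Moebius inversion. -/
theorem inversion (s : Finset ℕ → ℕ → ℝ) (j : ℕ) (V : Finset ℕ) :
    ∑ S ∈ V.powerset, phi s j S = s V j := by
  classical
  have h1 : ∀ S ∈ V.powerset, phi s j S =
      ∑ T ∈ V.powerset, if T ⊆ S then (-1 : ℝ) ^ (S.card - T.card) * s T j else 0 := by
    intro S hS
    rw [mem_powerset] at hS
    unfold phi
    rw [← sum_filter]
    apply sum_congr _ (fun _ _ => rfl)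
    ext T
    simp only [mem_powerset, mem_filter]
    exact ⟨fun h => ⟨h.trans hS, h⟩, fun h => h.2⟩
  rw [sum_congr rfl h1, sum_comm]
  have h2 : ∀ T ∈ V.powerset,
      (∑ S ∈ V.powerset, if T ⊆ S then (-1 : ℝ) ^ (S.card - T.card) * s T j else 0) =
        if T = V then s T j else 0 := by
    intro T hT
    rw [mem_powerset] at hT
    rw [← sum_filter, ← sum_mul, inner V T hT]
    by_cases h : T = V
    · simp [h]
    · simp [h]
  rw [sum_congr rfl h2, sum_ite_eq']
  simp

/-- The empty set does not contribute. -/
theorem phi_empty (p : Finset ℕ → ℝ) (s : Finset ℕ → ℕ → ℝ) (hp : p ∅ = 1)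
    (hs : ∀ T, IsNs (yc p T) (s T)) (j : ℕ) : phi s j ∅ = 0 := by
  have h0 : s ∅ j = 0 := by
    rcases Nat.eq_zero_or_pos j with h | h
    · subst h
      exact (hs ∅).1
    · have h1 := (hs ∅).2 j
      have hy : ∀ i, 0 < i → yc p ∅ i = 0 := by
        intro i hi
        unfold yc
        rw [powersetCard_eq_empty.mpr (by simpa using hi)]
        simp
      have hy0 : yc p ∅ 0 = 1 := by
        unfold yc
        simp [hp]
      rw [hy j h, mul_zero, sum_range_succ'] at h1
      rw [sum_eq_zero (fun i _ => by rw [hy (i + 1) (Nat.succ_pos i), zero_mul]), hy0] at h1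
      simpa using h1.symm
  unfold phi
  simp [h0]

theorem mob (h1 : MdgStmt) (h2 : MspStmt) : MobStmt := by
  intro p s R V F m j hp hs hmul hFV hF hj
  have key : ∑ S ∈ F, phi s j S = ∑ S ∈ V.powerset, phi s j S := by
    apply sum_subset hFV
    intro S hS hSF
    rw [mem_powerset] at hS
    by_cases hc : m < S.card
    · exact h1 p s hp hs j S (lt_of_le_of_lt hj hc)
    · have hn : ¬ Cnx R S := fun h => hSF (hF S hS (not_lt.mp hc) h)
      rcases S.eq_empty_or_nonempty with he | hne
      · rw [he]
        exact phi_empty p s hp hs j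
      · unfold Cnx at hn
        push Not at hn
        obtain ⟨S1, hS1, hne1, hneq, hR⟩ := hn hne
        have hne2 : (S \ S1).Nonempty := by
          rw [sdiff_nonempty]
          intro h'
          exact hneq (Subset.antisymm hS1 h')
        have hu : S1 ∪ (S \ S1) = S := union_sdiff_of_subset hS1
        have h3 := h2 p s S1 (S \ S1) hp hs disjoint_sdiff hne1 hne2 (by
          intro I J hI hJ
          apply hmul I J (hI.trans (hS1.trans hS)) (hJ.trans (sdiff_subset.trans hS))
          · exact disjoint_of_subset_left hI (disjoint_of_subset_right hJ disjoint_sdiff)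
          · intro u hu w hw
            exact hR u (hI hu) w (hJ hw)) j
        rw [hu] at h3
        exact h3
  calc s V j = ∑ S ∈ V.powerset, phi s j S := (inversion s j V).symm
    _ = ∑ S ∈ F, phi s j S := key.symm
    _ = _ := rfl

end Pool.Agent.Helper40.BO
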