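import Pool.Agent.Helper92.BO.GoalsF

/-!
# PTC: the table is computable in polynomial time
-/

namespace Pool.Agent.Helper40.BO

open Pool.Agent.Helper81.CC Pool.Agent.Bin Pool.Agent.Helper92.VP Pool.Agent.Helper92.FR

/-- One step of the table. -/
def tstep (E : List (ℕ × ℕ)) (n : ℕ) (Q : BN) (tab : List (List ℕ × BN)) (I : List ℕ) :
    List (List ℕ × BN) :=
  tab ++ [(I, Pool.Agent.Helper92.BO.cval E n Q tab I)]

theorem len_subL (S : List ℕ) : ∀ (acc : List (List ℕ)) (k : ℕ), (∀ I ∈ acc, I.length ≤ k) →
    ∀ I ∈ S.foldl (fun acc x => acc ++ acc.map fun I => I ++ [x]) acc,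
      I.length ≤ k + S.length := by
  induction S with
  | nil => intro acc k h I hI; exact (h I hI).trans (Nat.le_add_right _ _)
  | cons x S ih =>
    intro acc k h I hI
    rw [List.foldl_cons] at hI
    have h2 := ih (acc ++ acc.map fun I => I ++ [x]) (k + 1) (by
      intro J hJ
      rw [List.mem_append, List.mem_map] at hJ
      rcases hJ with hJ | ⟨J', hJ', rfl⟩
      · exact (h J hJ).trans (Nat.le_succ k)
      · rw [List.length_append]
        simpa using h J' hJ') I hI
    rw [List.length_cons]
    omega

theorem sum_le_of_forall (M : ℕ) : ∀ l : List ℕ, (∀ x ∈ l, x ≤ M) → l.sum ≤ l.length * M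
  | [], _ => by simp
  | x :: l, h => by
    rw [List.sum_cons, List.length_cons]
    have h1 := h x List.mem_cons_self
    have h2 := sum_le_of_forall M l fun y hy => h y (List.mem_cons_of_mem _ hy)
    nlinarith

theorem lkp_le (tab : List (List ℕ × BN)) (I : List ℕ) (M : ℕ)
    (h : ∀ z ∈ tab, z.1 = I → z.2.val ≤ M) : (Pool.Agent.Helper92.BO.lkp tab I).val ≤ M := by
  unfold Pool.Agent.Helper92.BO.lkp
  cases hf : tab.find? fun z => decide (z.1 = I) with
  | none => simp
  | some z =>
    have h1 := List.find?_some hf
    have h2 := List.mem_of_find?_eq_some hf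
    simpa using h z h2 (by simpa using h1)

theorem cval_le (E : List (ℕ × ℕ)) (n : ℕ) (Q : BN) (m : ℕ) (tab : List (List ℕ × BN))
    (I : List ℕ) (hI : I.length ≤ m)
    (h : ∀ z ∈ tab, z.2.val ≤ Q.val * (m + 1) ^ z.1.length) :
    (Pool.Agent.Helper92.BO.cval E n Q tab I).val ≤ Q.val * (m + 1) ^ I.length := by
  unfold Pool.Agent.Helper92.BO.cval
  by_cases h0 : I.isEmpty = true
  · rw [if_pos h0]
    exact Nat.le_mul_of_pos_right _ (by positivity)
  · rw [if_neg h0]
    by_cases h1 : Pool.Agent.Helper92.BO.hasE E I = true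
    · rw [if_pos h1]
      exact Nat.zero_le _
    · rw [if_neg h1]
      have hlen : 0 < I.length := by
        rw [List.isEmpty_iff] at h0
        exact List.length_pos_iff.mpr h0
      obtain ⟨k, hk⟩ : ∃ k, I.length = k + 1 := ⟨I.length - 1, by omega⟩
      have h2 : ((I.map fun i => Pool.Agent.Helper92.BO.lkp tab
          (I.filter fun j => decide (j ≠ i))).map BN.val).sum ≤
          I.length * (Q.val * (m + 1) ^ k) := by
        have h3 := sum_le_of_forall (Q.val * (m + 1) ^ k)
          ((I.map fun i => Pool.Agent.Helper92.BO.lkp tab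
            (I.filter fun j => decide (j ≠ i))).map BN.val) (by
            intro x hx
            rw [List.mem_map] at hx
            obtain ⟨y, hy, rfl⟩ := hx
            rw [List.mem_map] at hy
            obtain ⟨i, hi, rfl⟩ := hy
            apply lkp_le
            intro z hz hz1
            refine (h z hz).trans ?_
            apply Nat.mul_le_mul_left
            apply Nat.pow_le_pow_right (Nat.succ_pos m)
            have h4 : (I.filter fun j => decide (j ≠ i)).length < I.length := by
              rw [List.length_filter_lt_length_iff_exists]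
              exact ⟨i, hi, by simp⟩
            rw [hz1]
            omega)
        simpa using h3
      refine (Nat.div_le_self _ _).trans ?_
      refine h2.trans ?_
      rw [hk, pow_succ]
      calc (k + 1) * (Q.val * (m + 1) ^ k) ≤ (m + 1) * (Q.val * (m + 1) ^ k) := by
            apply Nat.mul_le_mul_right
            omega
        _ = Q.val * ((m + 1) ^ k * (m + 1)) := by ring

theorem inv (E : List (ℕ × ℕ)) (n : ℕ) (Q : BN) (m : ℕ) (l : List (List ℕ)) :
    (∀ I ∈ l, I.length ≤ m) →
    (∀ z ∈ l.foldl (tstep E n Q) [], z.2.val ≤ Q.val * (m + 1) ^ z.1.length ∧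
      z.1.length ≤ m) ∧ (l.foldl (tstep E n Q) []).map Prod.fst = l := by
  induction l using List.reverseRecOn with
  | nil => intro _; simp
  | append_singleton l I ih =>
    intro h
    obtain ⟨h1, h2⟩ := ih fun J hJ => h J (List.mem_append_left _ hJ)
    rw [List.foldl_append]
    have hI : I.length ≤ m := h I (List.mem_append_right _ List.mem_cons_self)
    simp only [List.foldl_cons, List.foldl_nil]
    refine ⟨?_, ?_⟩
    · intro z hz
      unfold tstep at hz
      rw [List.mem_append, List.mem_singleton] at hz
      rcases hz with hz | rfl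
      · exact h1 z hz
      · exact ⟨cval_le E n Q m _ I hI fun z hz => (h1 z hz).1, hI⟩
    · rw [tstep, List.map_append, h2]
      rfl

theorem sz_tab (K : ℕ) : ∀ t : List (List ℕ × BN), (∀ z ∈ t, sz z.2 ≤ K) →
    sz t ≤ sz (t.map Prod.fst) + t.length * (K + 1)
  | [], _ => by simp
  | z :: t, h => by
    have h1 := sz_tab K t fun y hy => h y (List.mem_cons_of_mem _ hy)
    have h2 := h z List.mem_cons_self
    obtain ⟨I, c⟩ := z
    simp only [List.map_cons, sz_cons, sz_pair, List.length_cons] at h1 h2 ⊢
    nlinarith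

theorem ptc (h1 : Pool.Agent.Helper92.BO.PtgStmt) (h2 : Pool.Agent.Helper92.BO.PtlStmt) :
    Pool.Agent.Helper92.BO.PtcStmt := by
  intro α _ E n m N Q S hE hn hm hN hQ hS hlen hpow
  have hsub := h2 α S m N hS hm hN hlen hpow
  have hstep : PolyTime (fun z : α × List (List ℕ × BN) × List ℕ =>
      tstep (E z.1) (n z.1) (Q z.1) z.2.1 z.2.2) := by
    have hE' : PolyTime (fun z : α × List (List ℕ × BN) × List ℕ => E z.1) :=
      PolyTime.comp hE (by fun_prop)
    have hn' : PolyTime (fun z : α × List (List ℕ × BN) × List ℕ => n z.1) :=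
      PolyTime.comp hn (by fun_prop)
    have hQ' : PolyTime (fun z : α × List (List ℕ × BN) × List ℕ => Q z.1) :=
      PolyTime.comp hQ (by fun_prop)
    have hI' : PolyTime (fun z : α × List (List ℕ × BN) × List ℕ => z.2.2) := by fun_prop
    obtain ⟨-, hcn, -, -, hhas⟩ := h1.2 (α × List (List ℕ × BN) × List ℕ) (fun z => E z.1)
      (fun z => n z.1) (fun z => n z.1) (fun z => n z.1) (fun z => z.2.2) hE' hn' hn' hn' hI'
    have hsum : PolyTime (fun z : α × List (List ℕ × BN) × List ℕ =>
        z.2.2.map fun i => Pool.Agent.Helper92.BO.lkp z.2.1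
          (z.2.2.filter fun j => decide (j ≠ i))) := by
      unfold Pool.Agent.Helper92.BO.lkp
      fun_prop
    unfold tstep Pool.Agent.Helper92.BO.cval
    fun_prop
  have hK : PBd (fun a => sz (Pool.Agent.Helper92.BO.subL (S a)) +
      (Pool.Agent.Helper92.BO.subL (S a)).length *
        (4 * (sz (Q a) + (m a + 1) * m a) + 1 + 1)) := by
    refine PBd.add hsub.bd (PBd.mul (PBd.length hsub) ?_)
    refine PBd.add (PBd.add (PBd.mul (PBd.const 4) (PBd.add hQ.bd ?_)) (PBd.const 1))
      (PBd.const 1)
    exact PBd.mul (PBd.add (PBd.nat hm) (PBd.const 1)) (PBd.nat hm)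
  have h := PolyTime.foldl_bd (l := fun a => Pool.Agent.Helper92.BO.subL (S a))
    (s0 := fun _ => ([] : List (List ℕ × BN))) (step := fun a => tstep (E a) (n a) (Q a))
    hsub (by fun_prop) hstep hK (by
      intro a l' hl'
      have hl : ∀ I ∈ l', I.length ≤ m a := by
        intro I hI
        have h3 := len_subL (S a) [[]] 0 (by simp) I (hl'.subset hI)
        have h4 := hlen a
        omega
      obtain ⟨h5, h6⟩ := inv (E a) (n a) (Q a) (m a) l' hl
      have h7 := sz_tab (4 * (sz (Q a) + (m a + 1) * m a) + 1)
        (l'.foldl (tstep (E a) (n a) (Q a)) []) (by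
          intro z hz
          obtain ⟨h8, h9⟩ := h5 z hz
          apply sz_le_of_lt
          calc z.2.val ≤ (Q a).val * (m a + 1) ^ z.1.length := h8
            _ ≤ (Q a).val * (m a + 1) ^ m a := by
                apply Nat.mul_le_mul_left
                exact Nat.pow_le_pow_right (Nat.succ_pos _) h9
            _ ≤ (Q a).val * 2 ^ ((m a + 1) * m a) := by
                apply Nat.mul_le_mul_left
                rw [pow_mul]
                exact Nat.pow_le_pow_left (Nat.lt_two_pow_self).le _
            _ < 2 ^ sz (Q a) * 2 ^ ((m a + 1) * m a) :=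
                Nat.mul_lt_mul_of_pos_right (val_lt_two_pow_sz (Q a)) (by positivity)
            _ = 2 ^ (sz (Q a) + (m a + 1) * m a) := by rw [pow_add])
      rw [h6] at h7
      have h10 : (l'.foldl (tstep (E a) (n a) (Q a)) []).length = l'.length := by
        conv_rhs => rw [← h6]
        rw [List.length_map]
      rw [h10] at h7
      have h11 := sz_prefix_le hl'
      have h12 := hl'.length_le
      refine h7.trans (Nat.add_le_add h11 (Nat.mul_le_mul_right _ h12)))
  exact h

end Pool.Agent.Helper40.BO
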